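import Mathlib

set_option autoImplicit false
set_option linter.unusedSectionVars false

namespace Pool.Agent.Frus

open Finset

variable {V : Type*} [Fintype V]

open Classical in
/-- The neighbours of a vertex. -/
noncomputable def nb (E : V → V → Prop) (v : V) : Finset V := univ.filter (E v)

/-- The adjacency relation of a simple graph of maximum degree at most three
without triangles and without cycles of length four. -/
structure Ctx (E : V → V → Prop) : Prop where
  symm : ∀ a b, E a b → E b a
  irr : ∀ a, ¬ E a a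
  card : ∀ v, (nb E v).card ≤ 3
  tri : ∀ a b c, E a b → E b c → E c a → False
  quad : ∀ a b c d, E a b → E b c → E c d → E d a → a ≠ c → b ≠ d → False

/-- A signed adjacency matrix such that the all ones vector maximises the
quadratic form over sign vectors. -/
structure Good (E : V → V → Prop) (s : V → V → ℤ) : Prop where
  symm : ∀ a b, s a b = s b a
  edge : ∀ a b, E a b ↔ s a b ≠ 0
  val : ∀ a b, s a b = 1 ∨ s a b = -1 ∨ s a b = 0
  max : ∀ e : V → ℤ, (∀ v, e v = 1 ∨ e v = -1) →
    ∑ a, ∑ b, s a b * (e a * e b) ≤ ∑ a, ∑ b, s a b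

/-- The vertex is incident with a negative edge. -/
def inV (s : V → V → ℤ) (a : V) : Prop := ∃ b, s a b = -1

/-- Switching by a sign vector. -/
def sw (e : V → ℤ) (s : V → V → ℤ) : V → V → ℤ := fun a b => e a * e b * s a b

theorem mem_nb {E : V → V → Prop} {v a : V} : a ∈ nb E v ↔ E v a := by simp [nb]

theorem Ctx.deg {E : V → V → Prop} (C : Ctx E) {v a b c d : V} (ha : E v a) (hb : E v b)
    (hc : E v c) (hd : E v d) (hab : a ≠ b) (hac : a ≠ c) (hbc : b ≠ c) :
    d = a ∨ d = b ∨ d = c := by
  classical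
  by_contra hn
  push Not at hn
  have h1 : ({d, a, b, c} : Finset V) ⊆ nb E v := by
    intro x hx
    simp only [mem_insert, mem_singleton] at hx
    rw [mem_nb]
    rcases hx with rfl | rfl | rfl | rfl <;> assumption
  have h2 := Finset.card_le_card h1
  have h3 : ({d, a, b, c} : Finset V).card = 4 := by
    rw [Finset.card_insert_of_notMem, Finset.card_insert_of_notMem,
      Finset.card_insert_of_notMem, Finset.card_singleton]
    · simpa using hbc
    · simp [hab, hac]
    · simp [hn.1, hn.2.1, hn.2.2]
  have := C.card v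
  omega

theorem Good.switch {E : V → V → Prop} {s : V → V → ℤ} (h : Good E s) {e : V → ℤ}
    (he : ∀ v, e v = 1 ∨ e v = -1)
    (ht : ∑ a, ∑ b, s a b * (e a * e b) = ∑ a, ∑ b, s a b) : Good E (sw e s) where
  symm a b := by
    simp only [Frus.sw, h.symm a b]; ring
  edge a b := by
    rw [h.edge]
    simp only [Frus.sw]
    rcases he a with h1 | h1 <;> rcases he b with h2 | h2 <;> simp [h1, h2]
  val a b := by
    simp only [Frus.sw]
    rcases he a with h1 | h1 <;> rcases he b with h2 | h2 <;>
      rcases h.val a b with h3 | h3 | h3 <;> simp [h1, h2, h3]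
  max f hf := by
    have h1 := h.max (fun v => f v * e v) (by
      intro v
      rcases he v with h1 | h1 <;> rcases hf v with h2 | h2 <;> simp [h1, h2])
    have h2 : ∑ a, ∑ b, Frus.sw e s a b * (f a * f b)
        = ∑ a, ∑ b, s a b * (f a * e a * (f b * e b)) := by
      refine Finset.sum_congr rfl fun a _ => Finset.sum_congr rfl fun b _ => ?_
      simp only [Frus.sw]; ring
    have h3 : ∑ a, ∑ b, Frus.sw e s a b = ∑ a, ∑ b, s a b * (e a * e b) := by
      refine Finset.sum_congr rfl fun a _ => Finset.sum_congr rfl fun b _ => ?_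
      simp only [Frus.sw]; ring
    rw [h2, h3, ht]
    exact h1

open Classical in
/-- The sign vector which is negative exactly on the given set. -/
noncomputable def sgn (Y : Finset V) : V → ℤ := fun v => if v ∈ Y then -1 else 1

theorem sgn_val (Y : Finset V) (v : V) : sgn Y v = 1 ∨ sgn Y v = -1 := by
  unfold sgn; split_ifs <;> simp

open Classical in
theorem ex_eq {s : V → V → ℤ} (hs : ∀ a b, s a b = s b a) (Y : Finset V) :
    ∑ a, ∑ b, s a b - ∑ a, ∑ b, s a b * (sgn Y a * sgn Y b)
      = 4 * (∑ a ∈ Y, ∑ b, s a b) - 4 * ∑ a ∈ Y, ∑ b ∈ Y, s a b := by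
  have h1 : ∀ a b : V, s a b - s a b * (sgn Y a * sgn Y b)
      = 2 * (if a ∈ Y then s a b else 0) + 2 * (if b ∈ Y then s a b else 0)
        - 4 * (if a ∈ Y then (if b ∈ Y then s a b else 0) else 0) := by
    intro a b
    unfold sgn
    split_ifs <;> ring
  have h2 : ∑ a, ∑ b, s a b - ∑ a, ∑ b, s a b * (sgn Y a * sgn Y b)
      = ∑ a, ∑ b, (2 * (if a ∈ Y then s a b else 0) + 2 * (if b ∈ Y then s a b else 0)
        - 4 * (if a ∈ Y then (if b ∈ Y then s a b else 0) else 0)) := by
    rw [← Finset.sum_sub_distrib]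
    refine Finset.sum_congr rfl fun a _ => ?_
    rw [← Finset.sum_sub_distrib]
    exact Finset.sum_congr rfl fun b _ => h1 a b
  rw [h2]
  have h3 : ∑ a, ∑ b, (if a ∈ Y then s a b else 0) = ∑ a ∈ Y, ∑ b, s a b := by
    rw [← Finset.sum_filter_add_sum_filter_not univ (fun a => a ∈ Y)]
    have e1 : ∑ x with x ∉ Y, ∑ b, (if x ∈ Y then s x b else 0) = 0 := by
      apply Finset.sum_eq_zero
      intro x hx
      simp only [mem_filter, mem_univ, true_and] at hx
      simp [hx]
    rw [e1, add_zero]
    have e2 : univ.filter (fun a => a ∈ Y) = Y := by ext; simp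
    rw [e2]
    exact Finset.sum_congr rfl fun x hx => by simp [hx]
  have h4 : ∑ a, ∑ b, (if b ∈ Y then s a b else 0) = ∑ a ∈ Y, ∑ b, s a b := by
    rw [Finset.sum_comm, ← h3]
    refine Finset.sum_congr rfl fun a _ => Finset.sum_congr rfl fun b _ => ?_
    rw [hs a b]
  have h5 : ∑ a, ∑ b, (if a ∈ Y then (if b ∈ Y then s a b else 0) else 0)
      = ∑ a ∈ Y, ∑ b ∈ Y, s a b := by
    rw [← Finset.sum_filter_add_sum_filter_not univ (fun a => a ∈ Y)]
    have e1 : ∑ x with x ∉ Y, ∑ b, (if x ∈ Y then (if b ∈ Y then s x b else 0) else 0) = 0 := by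
      apply Finset.sum_eq_zero
      intro x hx
      simp only [mem_filter, mem_univ, true_and] at hx
      simp [hx]
    rw [e1, add_zero]
    have e2 : univ.filter (fun a => a ∈ Y) = Y := by ext; simp
    rw [e2]
    refine Finset.sum_congr rfl fun x hx => ?_
    simp only [hx, if_true]
    rw [← Finset.sum_filter]
    refine Finset.sum_congr ?_ fun _ _ => rfl
    ext; simp
  simp only [Finset.sum_add_distrib, Finset.sum_sub_distrib, ← Finset.mul_sum]
  rw [h3, h4, h5]
  ring

end Pool.Agent.Frus
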