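import Pool.Agent.Frus.Struct

set_option autoImplicit false
set_option linter.unusedSectionVars false

namespace Pool.Agent.Frus

open Finset Classical

variable {V : Type*} [Fintype V] {E : V → V → Prop} {s t : V → V → ℤ}

/-- Vertices incident with a negative edge. -/
noncomputable def WW (s : V → V → ℤ) : Finset V := univ.filter (fun a => inV s a)
/-- The other vertices. -/
noncomputable def UU (s : V → V → ℤ) : Finset V := univ.filter (fun a => ¬ inV s a)
/-- Bad vertices. -/
noncomputable def BB (E : V → V → Prop) (s : V → V → ℤ) : Finset V :=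
  (UU s).filter (fun a => bad E s a)

theorem mem_WW {a : V} : a ∈ WW s ↔ inV s a := by simp [WW]
theorem mem_UU {a : V} : a ∈ UU s ↔ ¬ inV s a := by simp [UU]

theorem low (C : Ctx E) (h : Good E s) {v : V} (hv : inV s v) :
    2 ≤ ((UU s).filter (fun x => E x v)).card + ((UU s).filter (fun x => act E s v x)).card := by
  obtain ⟨u, hu⟩ := id hv
  by_cases hO : ∃ w, s v w = 1 ∧ inV s w
  · obtain ⟨w, hw, hwV⟩ := id hO
    obtain ⟨z, hz⟩ := id hwV
    obtain ⟨⟨x, hx, hxw, hxV⟩, -, -⟩ := h.pair C hw hu hz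
    have h1 : 0 < ((UU s).filter (fun x => E x v)).card :=
      Finset.card_pos.2 ⟨x, mem_filter.2 ⟨mem_UU.2 hxV, C.symm _ _ (h.ep hx)⟩⟩
    have h2 : 0 < ((UU s).filter (fun x => act E s v x)).card :=
      Finset.card_pos.2 ⟨x, mem_filter.2 ⟨mem_UU.2 hxV, hv, hxV, h.ep hx, Or.inl hO⟩⟩
    omega
  · by_cases hc : (nb E v).card ≤ 2
    · obtain ⟨⟨x, hx, hxV, -⟩, -⟩ := h.two C hu hc
      have h1 : 0 < ((UU s).filter (fun x => E x v)).card :=
        Finset.card_pos.2 ⟨x, mem_filter.2 ⟨mem_UU.2 hxV, C.symm _ _ (h.ep hx)⟩⟩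
      have h2 : 0 < ((UU s).filter (fun x => act E s v x)).card :=
        Finset.card_pos.2 ⟨x, mem_filter.2 ⟨mem_UU.2 hxV, hv, hxV, h.ep hx, Or.inr hc⟩⟩
      omega
    · have h1 := h.card_add v
      have h2 := h.ng_le C v
      have h3 : ps s v ⊆ (UU s).filter (fun x => E x v) := by
        intro x hx
        rw [mem_ps] at hx
        rw [mem_filter, mem_UU]
        exact ⟨fun hxV => hO ⟨x, hx, hxV⟩, C.symm _ _ (h.ep hx)⟩
      have h4 := Finset.card_le_card h3
      omega

theorem up (C : Ctx E) (h : Good E s) {x : V} (hx : ¬ inV s x) :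
    ((WW s).filter (fun v => E x v)).card + ((WW s).filter (fun v => act E s v x)).card
      + ((BB E s).filter (fun y => E x y)).card ≤ 3 + (if bad E s x then 1 else 0) := by
  set A := (WW s).filter (fun v => E x v) with hA
  set S := (WW s).filter (fun v => act E s v x) with hS
  set B := (BB E s).filter (fun y => E x y) with hB
  have mA : ∀ v, v ∈ A ↔ inV s v ∧ E x v := by intro v; rw [hA, mem_filter, mem_WW]
  have mS : ∀ v, v ∈ S ↔ act E s v x := by
    intro v; rw [hS, mem_filter, mem_WW]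
    exact ⟨fun h => h.2, fun h => ⟨h.1, h⟩⟩
  have mB : ∀ y, y ∈ B ↔ (¬ inV s y ∧ bad E s y) ∧ E x y := by
    intro v; rw [hB, mem_filter, BB, mem_filter, mem_UU]
  have hSA : S ⊆ A := by
    intro v hv
    rw [mS] at hv
    rw [mA]
    exact ⟨hv.1, C.symm _ _ hv.2.2.1⟩
  have hSAc := Finset.card_le_card hSA
  have hAB : A.card + B.card ≤ 3 := by
    rw [← Finset.card_union_of_disjoint]
    · refine le_trans (Finset.card_le_card ?_) (C.card x)
      intro y hy
      rw [mem_nb]
      rcases mem_union.1 hy with h1 | h1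
      · exact ((mA y).1 h1).2
      · exact ((mB y).1 h1).2
    · rw [Finset.disjoint_left]
      intro y h1 h2
      exact ((mB y).1 h2).1.1 ((mA y).1 h1).1
  by_cases hb : bad E s x
  · rw [if_pos hb]
    obtain ⟨v₁, v₂, hne, h1, h2⟩ := id hb
    have hA2 : A ⊆ {v₁, v₂} := by
      intro p hp
      rw [mA] at hp
      rw [mem_insert, mem_singleton]
      by_cases hp1 : p = v₁
      · left; exact hp1
      · right
        exact lemA C h h1 hp.2 (C.symm _ _ h2.2.2.1) hp.1 h2.1 hp1 (Ne.symm hne)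
    have hA2c := le_trans (Finset.card_le_card hA2) Finset.card_le_two
    have hB0 : B.card = 0 := by
      rw [Finset.card_eq_zero, Finset.eq_empty_iff_forall_notMem]
      intro y hy
      obtain ⟨⟨hyV, p, q, hpq, hp, hq⟩, hxy⟩ := (mB y).1 hy
      exact hpq (lemC C h hb hxy hyV (C.symm _ _ hp.2.2.1) (C.symm _ _ hq.2.2.1) hp.1 hq.1)
    omega
  · rw [if_neg hb]
    have hS1 : S.card ≤ 1 := by
      rw [Finset.card_le_one]
      intro p hp q hq
      by_contra hpq
      exact hb ⟨p, q, hpq, (mS p).1 hp, (mS q).1 hq⟩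
    by_cases hBe : B = ∅
    · rw [hBe, Finset.card_empty]
      rw [hBe, Finset.card_empty] at hAB
      rcases Finset.eq_empty_or_nonempty S with hSe | ⟨v, hv⟩
      · rw [hSe, Finset.card_empty]; omega
      · have hA1 : (A.erase v).card ≤ 1 := by
          rw [Finset.card_le_one]
          intro p hp q hq
          rw [mem_erase, mA] at hp hq
          exact lemA C h ((mS v).1 hv) hp.2.2 hq.2.2 hp.2.1 hq.2.1 hp.1 hq.1
        have := Finset.card_erase_of_mem (hSA hv)
        omega
    · obtain ⟨x', hx'⟩ := Finset.nonempty_iff_ne_empty.2 hBe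
      obtain ⟨⟨hx'V, hx'b⟩, hxx'⟩ := (mB x').1 hx'
      have hA1 : A.card ≤ 1 := by
        rw [Finset.card_le_one]
        intro p hp q hq
        rw [mA] at hp hq
        exact lemC C h hx'b (C.symm _ _ hxx') hx hp.2 hq.2 hp.1 hq.1
      rcases Finset.eq_empty_or_nonempty S with hSe | ⟨q, hq⟩
      · rw [hSe, Finset.card_empty]; omega
      · have hB1 : B.card ≤ 1 := by
          rw [Finset.card_le_one]
          intro y hy y' hy'
          by_contra hne
          obtain ⟨⟨hyV, hyb⟩, hxy⟩ := (mB y).1 hy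
          obtain ⟨⟨hyV', hyb'⟩, hxy'⟩ := (mB y').1 hy'
          exact lemD C h hyb hyb' hne (C.symm _ _ hxy) (C.symm _ _ hxy') ((mS q).1 hq)
        omega

theorem count (C : Ctx E) (h : Good E s) : 2 * (WW s).card ≤ 3 * (UU s).card := by
  have d1 := Finset.sum_card_bipartiteAbove_eq_sum_card_bipartiteBelow
    (s := UU s) (t := WW s) (fun x v => E x v)
  have d2 := Finset.sum_card_bipartiteAbove_eq_sum_card_bipartiteBelow
    (s := UU s) (t := WW s) (fun x v => act E s v x)
  have d3 := Finset.sum_card_bipartiteAbove_eq_sum_card_bipartiteBelow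
    (s := UU s) (t := BB E s) (fun x y => E x y)
  simp only [Finset.bipartiteAbove, Finset.bipartiteBelow] at d1 d2 d3
  have e1 : ∑ v ∈ WW s, 2 ≤ ∑ v ∈ WW s, (((UU s).filter (fun x => E x v)).card
      + ((UU s).filter (fun x => act E s v x)).card) :=
    Finset.sum_le_sum fun v hv => low C h (mem_WW.1 hv)
  have e2 : ∑ x ∈ UU s, (((WW s).filter (fun v => E x v)).card
      + ((WW s).filter (fun v => act E s v x)).card
      + ((BB E s).filter (fun y => E x y)).card)
      ≤ ∑ x ∈ UU s, (3 + (if bad E s x then 1 else 0)) :=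
    Finset.sum_le_sum fun x hx => up C h (mem_UU.1 hx)
  have e3 : ∑ y ∈ BB E s, 1 ≤ ∑ y ∈ BB E s, ((UU s).filter (fun x => E x y)).card := by
    refine Finset.sum_le_sum fun y hy => ?_
    rw [BB, mem_filter, mem_UU] at hy
    obtain ⟨v₁, v₂, hne, h1, h2⟩ := hy.2
    obtain ⟨t, T⟩ := transfer C h h1
    obtain ⟨w₁, w₂, u₂, z, -, -, -, -, -, hyz, -, -, -, hz, -⟩ := lemB C h h1 h2 hne T
    exact Finset.card_pos.2 ⟨z, mem_filter.2 ⟨mem_UU.2 hz, C.symm _ _ hyz⟩⟩
  have e4 : ∑ x ∈ UU s, (if bad E s x then 1 else 0) = (BB E s).card := by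
    rw [BB, Finset.card_filter]
  simp only [Finset.sum_add_distrib, Finset.sum_const, smul_eq_mul] at e1 e2 e3
  rw [e4] at e2
  rw [← d1, ← d2] at e1
  rw [← d3] at e3
  omega

theorem main (C : Ctx E) (h : Good E s) :
    5 * (WW s).card ≤ 3 * Fintype.card V := by
  have h1 := count C h
  have h2 : (WW s).card + (UU s).card = Fintype.card V := by
    unfold WW UU
    rw [Finset.card_filter_add_card_filter_not, Finset.card_univ]
  omega

end Pool.Agent.Frus
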