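import Pool.Agent.Frus.Count

set_option autoImplicit false
set_option linter.unusedSectionVars false
set_option linter.unusedSimpArgs false

namespace Pool.Agent.Frus

open Finset

universe u

/-- The signature obtained from `σ` by switching at the edge cut between `X` and its
complement: the sign of an edge is reversed exactly when the edge has one end in `X` and the
other end outside `X`. -/
noncomputable def switch {V : Type u} {G : SimpleGraph V} (σ : G.edgeSet → ℤˣ) (X : Set V) :
    G.edgeSet → ℤˣ :=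
  fun e => open Classical in if ∃ a ∈ X, ∃ b ∉ X, (e : Sym2 V) = s(a, b) then - σ e else σ e

/-- The frustration index of the signed graph: the least number of negative edges over all
signatures that arise from `σ` by switching at an edge cut. -/
noncomputable def frustration {V : Type u} {G : SimpleGraph V} (σ : G.edgeSet → ℤˣ) : ℕ :=
  sInf {k : ℕ | ∃ X : Set V, Nat.card {e : G.edgeSet // switch σ X e = -1} = k}

section

variable {V : Type u} [Fintype V] [DecidableEq V] {G : SimpleGraph V}

open Classical in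
/-- signed adjacency matrix -/
noncomputable def mat (σ : G.edgeSet → ℤˣ) (a b : V) : ℤ :=
  if h : G.Adj a b then ((σ ⟨s(a, b), h⟩ : ℤˣ) : ℤ) else 0

theorem mat_symm (σ : G.edgeSet → ℤˣ) (a b : V) : mat σ a b = mat σ b a := by
  unfold mat
  by_cases h : G.Adj a b
  · rw [dif_pos h, dif_pos h.symm]
    have h1 : (⟨s(a, b), h⟩ : G.edgeSet) = ⟨s(b, a), h.symm⟩ := Subtype.ext Sym2.eq_swap
    rw [h1]
  · rw [dif_neg h, dif_neg (fun h' => h h'.symm)]

theorem exists_good (σ : G.edgeSet → ℤˣ) : ∃ e : V → ℤ, (∀ v, e v = 1 ∨ e v = -1) ∧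
    Good G.Adj (sw e (mat σ)) := by
  classical
  let q : (V → ℤ) → ℤ := fun e => ∑ a, ∑ b, mat σ a b * (e a * e b)
  let F : Finset (V → ℤ) := Fintype.piFinset (fun _ => ({1, -1} : Finset ℤ))
  have hF : ∀ e, e ∈ F ↔ ∀ v, e v = 1 ∨ e v = -1 := by
    intro e
    simp [F, Fintype.mem_piFinset]
  have hne : F.Nonempty := ⟨fun _ => 1, (hF _).2 fun _ => Or.inl rfl⟩
  obtain ⟨e, he, hmax⟩ := Finset.exists_max_image F q hne
  have he' := (hF e).1 he
  refine ⟨e, he', ?_⟩
  have hval : ∀ a b, mat σ a b = 1 ∨ mat σ a b = -1 ∨ mat σ a b = 0 := by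
    intro a b
    unfold mat
    split_ifs with h
    · rcases Int.units_eq_one_or (σ ⟨s(a, b), h⟩) with h1 | h1 <;> simp [h1]
    · simp
  refine ⟨?_, ?_, ?_, ?_⟩
  · intro a b
    simp only [sw, mat_symm σ a b]; ring
  · intro a b
    have h1 : G.Adj a b ↔ mat σ a b ≠ 0 := by
      unfold mat
      split_ifs with h
      · rcases Int.units_eq_one_or (σ ⟨s(a, b), h⟩) with h1 | h1 <;> simp [h1, h]
      · simp [h]
    rw [h1]
    simp only [sw]
    rcases he' a with h2 | h2 <;> rcases he' b with h3 | h3 <;> simp [h2, h3]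
  · intro a b
    simp only [sw]
    rcases he' a with h1 | h1 <;> rcases he' b with h2 | h2 <;>
      rcases hval a b with h3 | h3 | h3 <;> simp [h1, h2, h3]
  · intro f hf
    have h1 := hmax (fun v => f v * e v) ((hF _).2 (by
      intro v
      rcases he' v with h1 | h1 <;> rcases hf v with h2 | h2 <;> simp [h1, h2]))
    have h2 : ∑ a, ∑ b, sw e (mat σ) a b * (f a * f b) = q (fun v => f v * e v) := by
      refine Finset.sum_congr rfl fun a _ => Finset.sum_congr rfl fun b _ => ?_
      simp only [sw]; ring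
    have h3 : ∑ a, ∑ b, sw e (mat σ) a b = q e := by
      refine Finset.sum_congr rfl fun a _ => Finset.sum_congr rfl fun b _ => ?_
      simp only [sw]; ring
    rw [h2, h3]
    exact h1

theorem ctx_of (hdeg : ∀ v, (G.neighborSet v).ncard ≤ 3) (hg : 5 ≤ G.egirth) :
    Ctx G.Adj where
  symm a b h := h.symm
  irr a h := G.irrefl h
  card v := by
    have h1 : ((nb G.Adj v : Finset V) : Set V) = G.neighborSet v := by
      ext a; simp [mem_nb]
    have h2 := hdeg v
    rw [← h1, Set.ncard_coe_finset] at h2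
    exact h2
  tri a b c hab hbc hca := by
    have hac : a ≠ c := fun h => G.irrefl (h ▸ hca)
    let w : G.Walk a a := .cons hab (.cons hbc (.cons hca .nil))
    have hc : w.IsCycle := by
      rw [SimpleGraph.Walk.isCycle_def]
      refine ⟨?_, by simp [w], ?_⟩
      · simp [w, SimpleGraph.Walk.isTrail_def, hab.ne, hab.ne', hbc.ne, hbc.ne', hca.ne, hca.ne']
      · simp [w, hab.ne, hab.ne', hbc.ne, hbc.ne', hca.ne, hca.ne']
    have h1 := (SimpleGraph.le_egirth.1 hg) a w hc
    have h2 : w.length = 3 := rfl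
    rw [h2] at h1
    exact absurd h1 (by decide)
  quad a b c d hab hbc hcd hda hac hbd := by
    let w : G.Walk a a := .cons hab (.cons hbc (.cons hcd (.cons hda .nil)))
    have hc : w.IsCycle := by
      rw [SimpleGraph.Walk.isCycle_def]
      refine ⟨?_, by simp [w], ?_⟩
      · simp [w, SimpleGraph.Walk.isTrail_def, hab.ne, hab.ne', hbc.ne, hbc.ne', hcd.ne, hcd.ne',
          hda.ne, hda.ne', hac, hbd, hac.symm, hbd.symm]
      · simp [w, hab.ne, hab.ne', hbc.ne, hbc.ne', hcd.ne, hcd.ne', hda.ne, hda.ne',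
          hac, hbd, hac.symm, hbd.symm]
    have h1 := (SimpleGraph.le_egirth.1 hg) a w hc
    have h2 : w.length = 4 := rfl
    rw [h2] at h1
    exact absurd h1 (by decide)

theorem switch_neg (σ : G.edgeSet → ℤˣ) {e : V → ℤ} (he : ∀ v, e v = 1 ∨ e v = -1)
    {a b : V} (h : G.Adj a b) :
    switch σ {v | e v = -1} ⟨s(a, b), h⟩ = -1 ↔ sw e (mat σ) a b = -1 := by
  have hc : (∃ a' ∈ {v | e v = -1}, ∃ b' ∉ {v | e v = -1},
      ((⟨s(a, b), h⟩ : G.edgeSet) : Sym2 V) = s(a', b')) ↔ e a * e b = -1 := by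
    simp only [Set.mem_ofPred_eq]
    constructor
    · rintro ⟨a', ha', b', hb', h1⟩
      have hb1 : e b' = 1 := (he b').resolve_right hb'
      rcases Sym2.eq_iff.1 h1 with ⟨rfl, rfl⟩ | ⟨rfl, rfl⟩
      · rw [ha', hb1]; norm_num
      · rw [ha', hb1]; norm_num
    · intro h1
      rcases he a with h2 | h2 <;> rcases he b with h3 | h3
      · rw [h2, h3] at h1; norm_num at h1
      · exact ⟨b, h3, a, by rw [h2]; norm_num, Sym2.eq_swap⟩
      · exact ⟨a, h2, b, by rw [h3]; norm_num, rfl⟩
      · rw [h2, h3] at h1; norm_num at h1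
  unfold switch sw mat
  rw [dif_pos h]
  by_cases h1 : e a * e b = -1
  · rw [if_pos (hc.2 h1), h1]
    rcases Int.units_eq_one_or (σ ⟨s(a, b), h⟩) with h2 | h2
    · simp [h2]
    · simp [h2]
  · rw [if_neg (fun h2 => h1 (hc.1 h2))]
    have h3 : e a * e b = 1 := by
      rcases he a with h2 | h2 <;> rcases he b with h3 | h3
      · rw [h2, h3]; norm_num
      · exact absurd (by rw [h2, h3]; norm_num) h1
      · exact absurd (by rw [h2, h3]; norm_num) h1
      · rw [h2, h3]; norm_num
    rw [h3]
    rcases Int.units_eq_one_or (σ ⟨s(a, b), h⟩) with h2 | h2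
    · simp [h2]
    · simp [h2]

/-- The graph of negative edges. -/
def negGraph {E : V → V → Prop} {s : V → V → ℤ} (C : Ctx E) (h : Good E s) :
    SimpleGraph V where
  Adj a b := s a b = -1
  symm := ⟨fun a b hab => by rw [h.symm]; exact hab⟩
  loopless := ⟨fun a haa => by rw [h.diag C] at haa; norm_num at haa⟩

theorem card_neg (C : Ctx G.Adj) (σ : G.edgeSet → ℤˣ) {e : V → ℤ}
    (he : ∀ v, e v = 1 ∨ e v = -1) (h : Good G.Adj (sw e (mat σ))) :
    (WW (sw e (mat σ))).card =
      2 * Nat.card {x : G.edgeSet // switch σ {v | e v = -1} x = -1} := by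
  classical
  have h1 := SimpleGraph.sum_degrees_eq_twice_card_edges (negGraph C h)
  have h2 : ∑ v, (negGraph C h).degree v = (WW (sw e (mat σ))).card := by
    unfold WW
    rw [Finset.card_filter]
    refine Finset.sum_congr rfl fun v _ => ?_
    have h3 : (negGraph C h).neighborFinset v = ng (sw e (mat σ)) v := by
      ext a
      rw [SimpleGraph.mem_neighborFinset, mem_ng]
      rfl
    rw [← SimpleGraph.card_neighborFinset_eq_degree, h3]
    split_ifs with h4
    · obtain ⟨u, hu⟩ := h4
      exact le_antisymm (h.ng_le C v) (Finset.card_pos.2 ⟨u, mem_ng.2 hu⟩)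
    · rw [Finset.card_eq_zero, Finset.eq_empty_iff_forall_notMem]
      intro u hu
      exact h4 ⟨u, mem_ng.1 hu⟩
  have h5 : Nat.card {x : G.edgeSet // switch σ {v | e v = -1} x = -1}
      = (negGraph C h).edgeFinset.card := by
    have h6 : ∀ (y : Sym2 V), (∃ hy : y ∈ G.edgeSet, switch σ {v | e v = -1} ⟨y, hy⟩ = -1) ↔
        y ∈ (negGraph C h).edgeSet := by
      intro y
      induction y using Sym2.ind with
      | _ a b =>
        constructor
        · rintro ⟨hy, h7⟩
          exact (switch_neg σ he hy).1 h7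
        · intro h7
          have h8 : sw e (mat σ) a b = -1 := h7
          have h9 : G.Adj a b := (h.edge a b).2 (by rw [h8]; norm_num)
          exact ⟨h9, (switch_neg σ he h9).2 h8⟩
    have h7 : Nat.card {x : G.edgeSet // switch σ {v | e v = -1} x = -1}
        = Nat.card (negGraph C h).edgeSet := by
      refine Nat.card_congr (Equiv.ofBijective (fun x => ⟨x.1.1, (h6 _).1 ⟨x.1.2, x.2⟩⟩) ⟨?_, ?_⟩)
      · intro x y hxy
        have := congrArg Subtype.val hxy
        exact Subtype.ext (Subtype.ext this)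
      · rintro ⟨y, hy⟩
        obtain ⟨hy1, hy2⟩ := (h6 y).2 hy
        exact ⟨⟨⟨y, hy1⟩, hy2⟩, rfl⟩
    rw [h7, Nat.card_eq_fintype_card, ← SimpleGraph.edgeFinset_card]
  rw [← h2, h1, h5]

end

theorem final {V : Type u} [Finite V] (G : SimpleGraph V)
    (hdeg : ∀ v, (G.neighborSet v).ncard ≤ 3) (hg : 5 ≤ G.egirth) (σ : G.edgeSet → ℤˣ) :
    10 * frustration σ ≤ 3 * Nat.card V := by
  classical
  have := Fintype.ofFinite V
  have C := ctx_of hdeg hg
  obtain ⟨e, he, h⟩ := exists_good σ
  have h1 := main C h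
  rw [card_neg C σ he h] at h1
  have h2 : frustration σ ≤ Nat.card {x : G.edgeSet // switch σ {v | e v = -1} x = -1} :=
    Nat.sInf_le ⟨_, rfl⟩
  rw [Nat.card_eq_fintype_card]
  omega

end Pool.Agent.Frus
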