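import Pool.Agent.Frus.Core

set_option autoImplicit false
set_option linter.unusedSectionVars false

namespace Pool.Agent.Frus

open Finset

variable {V : Type*} [Fintype V] [DecidableEq V] {E : V → V → Prop} {s : V → V → ℤ}

open Classical in
/-- Positive neighbours. -/
noncomputable def ps (s : V → V → ℤ) (v : V) : Finset V := univ.filter (fun b => s v b = 1)

open Classical in
/-- Negative neighbours. -/
noncomputable def ng (s : V → V → ℤ) (v : V) : Finset V := univ.filter (fun b => s v b = -1)

theorem mem_ps {v a : V} : a ∈ ps s v ↔ s v a = 1 := by simp [ps]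
theorem mem_ng {v a : V} : a ∈ ng s v ↔ s v a = -1 := by simp [ng]

theorem Good.sum_eq (h : Good E s) (v : V) :
    ∑ b, s v b = (ps s v).card - (ng s v).card := by
  classical
  have h1 : ∀ b, s v b = (if s v b = 1 then 1 else 0) - (if s v b = -1 then (1:ℤ) else 0) := by
    intro b
    rcases h.val v b with h1 | h1 | h1 <;> simp [h1]
  rw [Finset.sum_congr rfl fun b _ => h1 b, Finset.sum_sub_distrib]
  simp only [Finset.sum_boole]
  unfold ps ng
  congr!

theorem Good.card_add (h : Good E s) (v : V) :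
    (ps s v).card + (ng s v).card = (nb E v).card := by
  classical
  rw [← Finset.card_union_of_disjoint]
  · congr 1
    ext b
    rw [mem_union, mem_ps, mem_ng, mem_nb, h.edge]
    rcases h.val v b with h1 | h1 | h1 <;> simp [h1]
  · rw [Finset.disjoint_left]
    intro b hb
    rw [mem_ps] at hb
    rw [mem_ng, hb]
    norm_num

theorem Good.diag (C : Ctx E) (h : Good E s) (v : V) : s v v = 0 := by
  by_contra hn
  exact C.irr v ((h.edge v v).2 hn)

theorem Good.single_diff (C : Ctx E) (h : Good E s) (v : V) :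
    ∑ a, ∑ b, s a b - ∑ a, ∑ b, s a b * (sgn {v} a * sgn {v} b)
      = 4 * (((ps s v).card : ℤ) - (ng s v).card) := by
  rw [ex_eq h.symm]
  simp only [Finset.sum_singleton, h.diag C, h.sum_eq]
  ring

theorem Good.single_le (C : Ctx E) (h : Good E s) (v : V) :
    (ng s v).card ≤ (ps s v).card := by
  have h1 := h.single_diff C v
  have h2 := h.max (sgn {v}) (sgn_val _)
  omega

theorem Good.ng_le (C : Ctx E) (h : Good E s) (v : V) : (ng s v).card ≤ 1 := by
  have h1 := h.single_le C v
  have h2 := h.card_add v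
  have h3 := C.card v
  omega

theorem Good.uniq (C : Ctx E) (h : Good E s) {v a b : V} (ha : s v a = -1) (hb : s v b = -1) :
    a = b := by
  have h1 := h.ng_le C v
  rw [Finset.card_le_one] at h1
  exact h1 a (mem_ng.2 ha) b (mem_ng.2 hb)

theorem Good.pair_diff (C : Ctx E) (h : Good E s) {v w : V} (hvw : s v w = 1) :
    ∑ a, ∑ b, s a b - ∑ a, ∑ b, s a b * (sgn {v, w} a * sgn {v, w} b)
      = 4 * (((ps s v).card : ℤ) - (ng s v).card + ((ps s w).card : ℤ) - (ng s w).card - 2) := by
  classical
  have hne : v ≠ w := by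
    rintro rfl
    rw [h.diag C] at hvw
    norm_num at hvw
  rw [ex_eq h.symm]
  rw [Finset.sum_pair hne, Finset.sum_pair hne, Finset.sum_pair hne, Finset.sum_pair hne]
  rw [h.diag C, h.diag C, h.symm w v, hvw]
  simp only [h.sum_eq]
  ring

/-- Description of the switched matrix. -/
theorem sw_in {Y : Finset V} {a b : V} (h : a ∈ Y ↔ b ∈ Y) : sw (sgn Y) s a b = s a b := by
  unfold sw sgn
  by_cases h1 : a ∈ Y
  · simp [h1, h.1 h1]
  · have h2 : b ∉ Y := fun h3 => h1 (h.2 h3)
    simp [h1, h2]

theorem sw_out {Y : Finset V} {a b : V} (ha : a ∈ Y) (hb : b ∉ Y) :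
    sw (sgn Y) s a b = - s a b := by
  unfold sw sgn
  simp [ha, hb]

theorem sw_out' {Y : Finset V} {a b : V} (ha : a ∉ Y) (hb : b ∈ Y) :
    sw (sgn Y) s a b = - s a b := by
  unfold sw sgn
  simp [ha, hb]

/-- A vertex of degree two which is incident with a negative edge. -/
theorem Good.two (C : Ctx E) (h : Good E s) {v u : V} (hu : s v u = -1)
    (hd : (nb E v).card ≤ 2) :
    (∃ x, s v x = 1 ∧ ¬ inV s x ∧ (∀ b, E v b → b = u ∨ b = x)) ∧
      Good E (sw (sgn {v}) s) := by
  classical
  have h1 := h.single_le C v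
  have h2 := h.card_add v
  have h3 : 1 ≤ (ng s v).card := Finset.card_pos.2 ⟨u, mem_ng.2 hu⟩
  have h4 : (ng s v).card = 1 := le_antisymm (h.ng_le C v) h3
  have h5 : (ps s v).card = 1 := by omega
  have hg : Good E (sw (sgn {v}) s) := by
    apply h.switch (sgn_val _)
    have h6 := h.single_diff C v
    rw [h4, h5] at h6
    omega
  refine ⟨?_, hg⟩
  obtain ⟨x, hx⟩ := Finset.card_eq_one.1 h5
  have hx1 : s v x = 1 := mem_ps.1 (by rw [hx]; exact mem_singleton_self x)
  have hxv : x ≠ v := by
    rintro rfl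
    rw [h.diag C] at hx1
    norm_num at hx1
  refine ⟨x, hx1, ?_, ?_⟩
  · rintro ⟨c, hc⟩
    have hcv : c ≠ v := by
      rintro rfl
      rw [h.symm, hx1] at hc
      norm_num at hc
    have e1 : sw (sgn {v}) s x c = -1 := by
      rw [sw_in, hc]
      simp [hxv, hcv]
    have e2 : sw (sgn {v}) s x v = -1 := by
      rw [sw_out' (by simpa using hxv) (by simp), h.symm, hx1]
    exact hcv (hg.uniq C e1 e2)
  · intro b hb
    rw [h.edge] at hb
    rcases h.val v b with h6 | h6 | h6
    · right
      have : b ∈ ps s v := mem_ps.2 h6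
      rw [hx] at this
      exact mem_singleton.1 this
    · left
      exact h.uniq C h6 hu
    · exact absurd h6 hb

/-- A positive edge between two vertices incident with negative edges. -/
theorem Good.pair (C : Ctx E) (h : Good E s) {v w u z : V} (hvw : s v w = 1)
    (hu : s v u = -1) (hz : s w z = -1) :
    (∃ v', s v v' = 1 ∧ v' ≠ w ∧ ¬ inV s v') ∧ (∃ w', s w w' = 1 ∧ w' ≠ v ∧ ¬ inV s w') ∧
      Good E (sw (sgn {v, w}) s) := by
  classical
  have hne : v ≠ w := by
    rintro rfl
    rw [h.diag C] at hvw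
    norm_num at hvw
  have hwv : s w v = 1 := by rw [h.symm]; exact hvw
  have hd := h.pair_diff C hvw
  have hm := h.max (sgn {v, w}) (sgn_val _)
  have a1 := h.card_add v
  have a2 := h.card_add w
  have a3 : (ng s v).card = 1 := le_antisymm (h.ng_le C v) (Finset.card_pos.2 ⟨u, mem_ng.2 hu⟩)
  have a4 : (ng s w).card = 1 := le_antisymm (h.ng_le C w) (Finset.card_pos.2 ⟨z, mem_ng.2 hz⟩)
  have a5 := C.card v
  have a6 := C.card w
  have a7 : (ps s v).card = 2 := by rw [a3, a4] at hd; omega
  have a8 : (ps s w).card = 2 := by rw [a3, a4] at hd; omega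
  have hg : Good E (sw (sgn {v, w}) s) := by
    apply h.switch (sgn_val _)
    rw [a3, a4, a7, a8] at hd
    omega
  have key : ∀ v w u z : V, v ≠ w → s v w = 1 → s v u = -1 → s w z = -1 →
      Good E (sw (sgn {v, w}) s) → (ps s v).card = 2 →
      ∃ v', s v v' = 1 ∧ v' ≠ w ∧ ¬ inV s v' := by
    intro v w u z hne hvw hu hz hg hc
    have hwm : w ∈ ps s v := mem_ps.2 hvw
    have h1 : ((ps s v).erase w).card = 1 := by
      rw [Finset.card_erase_of_mem hwm, hc]
    obtain ⟨x, hx⟩ := Finset.card_eq_one.1 h1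
    have hx0 : x ∈ (ps s v).erase w := by rw [hx]; exact mem_singleton_self x
    rw [mem_erase, mem_ps] at hx0
    have hxv : x ≠ v := by
      rintro rfl
      rw [h.diag C] at hx0
      norm_num at hx0
    refine ⟨x, hx0.2, hx0.1, ?_⟩
    rintro ⟨c, hxc⟩
    have hcv : c ≠ v := by
      rintro rfl
      rw [h.symm, hx0.2] at hxc
      norm_num at hxc
    have hcw : c ≠ w := by
      rintro rfl
      refine C.tri v x c ?_ ?_ ?_
      · rw [h.edge, hx0.2]; norm_num
      · rw [h.edge, hxc]; norm_num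
      · rw [h.edge, h.symm, hvw]; norm_num
    have e1 : sw (sgn {v, w}) s x c = -1 := by
      rw [sw_in, hxc]
      simp [hxv, hcv, hx0.1, hcw]
    have e2 : sw (sgn {v, w}) s x v = -1 := by
      rw [sw_out' (by simp [hxv, hx0.1]) (by simp), h.symm, hx0.2]
    exact hcv (hg.uniq C e1 e2)
  refine ⟨key v w u z hne hvw hu hz hg a7, key w v z u (Ne.symm hne) hwv hz hu ?_ a8, hg⟩
  rw [Finset.pair_comm]
  exact hg

end Pool.Agent.Frus
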