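import Pool.Agent.Frus.Local

set_option autoImplicit false
set_option linter.unusedSectionVars false

namespace Pool.Agent.Frus

open Finset

variable {V : Type*} [Fintype V] [DecidableEq V] {E : V → V → Prop} {s t : V → V → ℤ}

theorem Good.ep (h : Good E s) {a b : V} (hab : s a b = 1) : E a b := by
  rw [h.edge, hab]; norm_num

theorem Good.en (h : Good E s) {a b : V} (hab : s a b = -1) : E a b := by
  rw [h.edge, hab]; norm_num

/-- A vertex incident with a negative edge has at most one positive edge to such a vertex. -/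
theorem Good.opart (C : Ctx E) (h : Good E s) {v w w' : V} (hv : inV s v)
    (h1 : s v w = 1) (hw : inV s w) (h2 : s v w' = 1) (hw' : inV s w') : w = w' := by
  obtain ⟨u, hu⟩ := hv
  obtain ⟨z, hz⟩ := hw
  obtain ⟨⟨x, hx, hxw, hxV⟩, -, -⟩ := h.pair C h1 hu hz
  have hux : u ≠ x := by rintro rfl; rw [hx] at hu; norm_num at hu
  have huw : u ≠ w := by rintro rfl; rw [h1] at hu; norm_num at hu
  rcases C.deg (h.en hu) (h.ep hx) (h.ep h1) (h.ep h2) hux huw hxw with rfl | rfl | rfl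
  · rw [h2] at hu; norm_num at hu
  · exact absurd hw' hxV
  · rfl

/-- A vertex with a positive edge between two vertices incident with negative edges
has degree three. -/
theorem Good.card_three (C : Ctx E) (h : Good E s) {v w : V} (hv : inV s v)
    (h1 : s v w = 1) (hw : inV s w) : ¬ (nb E v).card ≤ 2 := by
  obtain ⟨u, hu⟩ := hv
  obtain ⟨z, hz⟩ := hw
  obtain ⟨⟨x, hx, hxw, hxV⟩, -, -⟩ := h.pair C h1 hu hz
  have hux : u ≠ x := by rintro rfl; rw [hx] at hu; norm_num at hu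
  have huw : u ≠ w := by rintro rfl; rw [h1] at hu; norm_num at hu
  have h2 : ({u, x, w} : Finset V) ⊆ nb E v := by
    intro y hy
    simp only [mem_insert, mem_singleton] at hy
    rw [mem_nb]
    rcases hy with rfl | rfl | rfl
    · exact h.en hu
    · exact h.ep hx
    · exact h.ep h1
  have h3 := Finset.card_le_card h2
  rw [Finset.card_insert_of_notMem, Finset.card_insert_of_notMem, Finset.card_singleton] at h3
  · omega
  · simpa using hxw
  · simp [hux, huw]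

/-- `v` is an active neighbour of `x`. -/
def act (E : V → V → Prop) (s : V → V → ℤ) (v x : V) : Prop :=
  inV s v ∧ ¬ inV s x ∧ E v x ∧ ((∃ w, s v w = 1 ∧ inV s w) ∨ (nb E v).card ≤ 2)

/-- The state reached by moving the negative edge at `v` to the edge `vx`. -/
structure Tr (E : V → V → Prop) (s : V → V → ℤ) (v x : V) (t : V → V → ℤ) : Prop where
  good : Good E t
  neg : t v x = -1
  lose : ∀ a, inV s a → ¬ inV t a → s v a = -1 ∨ ∃ w, s v w = 1 ∧ inV s w ∧ s w a = -1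
  same : ∀ a b, a ≠ v → b ≠ v → ¬ (s v a = 1 ∧ inV s a) → ¬ (s v b = 1 ∧ inV s b) →
    t a b = s a b

theorem transfer (C : Ctx E) (h : Good E s) {v x : V} (ha : act E s v x) :
    ∃ t, Tr E s v x t := by
  obtain ⟨hv, hx, hvx, hor⟩ := ha
  have hvx1 : s v x = 1 := by
    rcases h.val v x with h1 | h1 | h1
    · exact h1
    · exact absurd ⟨v, by rw [h.symm]; exact h1⟩ hx
    · exact absurd h1 ((h.edge v x).1 hvx)
  have hxv : x ≠ v := by rintro rfl; exact hx hv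
  by_cases hO : ∃ w, s v w = 1 ∧ inV s w
  · obtain ⟨w, hw, hwV⟩ := hO
    obtain ⟨u, hu⟩ := id hv
    obtain ⟨z, hz⟩ := id hwV
    obtain ⟨⟨x', hx', hx'w, hx'V⟩, ⟨w', hw', hw'v, hw'V⟩, hg⟩ := h.pair C hw hu hz
    have hxw : x ≠ w := by rintro rfl; exact hx hwV
    have hwv : w ≠ v := by rintro rfl; rw [h.diag C] at hw; norm_num at hw
    refine ⟨_, hg, ?_, ?_, ?_⟩
    · rw [sw_out (by simp) (by simp [hxv, hxw]), hvx1]
    · intro a haV hat
      obtain ⟨c, hc⟩ := haV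
      by_cases hav : a = v
      · subst hav
        exact absurd ⟨x, by rw [sw_out (by simp) (by simp [hxv, hxw]), hvx1]⟩ hat
      by_cases haw : a = w
      · subst haw
        refine absurd ⟨w', ?_⟩ hat
        rw [sw_out (by simp) (by
          simp only [mem_insert, mem_singleton, not_or]
          refine ⟨hw'v, ?_⟩
          rintro rfl
          rw [h.diag C] at hw'; norm_num at hw'), hw']
      by_cases hcv : c = v
      · subst hcv
        left; rw [h.symm]; exact hc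
      by_cases hcw : c = w
      · subst hcw
        right; exact ⟨c, hw, ⟨z, hz⟩, by rw [h.symm]; exact hc⟩
      refine absurd ⟨c, ?_⟩ hat
      rw [sw_in (by simp [hav, haw, hcv, hcw]), hc]
    · intro a b hav hbv ha hb
      have haw : a ≠ w := by rintro rfl; exact ha ⟨hw, hwV⟩
      have hbw : b ≠ w := by rintro rfl; exact hb ⟨hw, hwV⟩
      rw [sw_in (by simp [hav, haw, hbv, hbw])]
  · have hc : (nb E v).card ≤ 2 := by
      rcases hor with h1 | h1
      · exact absurd h1 hO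
      · exact h1
    obtain ⟨u, hu⟩ := id hv
    obtain ⟨⟨x', hx', hx'V, hall⟩, hg⟩ := h.two C hu hc
    refine ⟨_, hg, ?_, ?_, ?_⟩
    · rw [sw_out (by simp) (by simp [hxv]), hvx1]
    · intro a haV hat
      obtain ⟨c, hac⟩ := haV
      by_cases hav : a = v
      · subst hav
        exact absurd ⟨x, by rw [sw_out (by simp) (by simp [hxv]), hvx1]⟩ hat
      by_cases hcv : c = v
      · subst hcv
        left; rw [h.symm]; exact hac
      refine absurd ⟨c, ?_⟩ hat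
      rw [sw_in (by simp [hav, hcv]), hac]
    · intro a b hav hbv ha hb
      rw [sw_in (by simp [hav, hbv])]

/-- Lemma A: a vertex with an active neighbour has at most one further neighbour
incident with a negative edge. -/
theorem lemA (C : Ctx E) (h : Good E s) {v x p q : V} (ha : act E s v x)
    (hp : E x p) (hq : E x q) (hpV : inV s p) (hqV : inV s q) (hpv : p ≠ v) (hqv : q ≠ v) :
    p = q := by
  obtain ⟨t, T⟩ := transfer C h ha
  obtain ⟨hv, hx, hvx, hor⟩ := ha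
  have htx : t x v = -1 := by rw [T.good.symm]; exact T.neg
  have key : ∀ p, E x p → inV s p → p ≠ v → inV t p ∧ t x p = 1 := by
    intro p hp hpV hpv
    constructor
    · by_contra hn
      rcases T.lose p hpV hn with h1 | ⟨w, hw, hwV, hwp⟩
      · exact C.tri x v p (C.symm _ _ hvx) (h.en h1) (C.symm _ _ hp)
      · refine C.quad x v w p (C.symm _ _ hvx) (h.ep hw) (h.en hwp) (C.symm _ _ hp) ?_ hpv.symm
        rintro rfl
        exact hx hwV
    · rcases T.good.val x p with h1 | h1 | h1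
      · exact h1
      · exact absurd (T.good.uniq C h1 htx) hpv
      · exact absurd h1 ((T.good.edge x p).1 hp)
  obtain ⟨p1, p2⟩ := key p hp hpV hpv
  obtain ⟨q1, q2⟩ := key q hq hqV hqv
  exact T.good.opart C ⟨v, htx⟩ p2 p1 q2 q1

/-- Lemma B: structure around a vertex with two active neighbours. -/
theorem lemB (C : Ctx E) (h : Good E s) {x v₁ v₂ : V} (h1 : act E s v₁ x) (h2 : act E s v₂ x)
    (hne : v₁ ≠ v₂) (T : Tr E s v₁ x t) :
    ∃ w₁ w₂ u₂ y, s v₁ w₁ = 1 ∧ inV s w₁ ∧ s v₂ w₂ = 1 ∧ inV s w₂ ∧ s w₁ w₂ = -1 ∧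
      E x y ∧ y ≠ v₁ ∧ y ≠ v₂ ∧ ¬ inV t y ∧ ¬ inV s y ∧
      s v₂ u₂ = -1 ∧ t v₂ u₂ = -1 ∧ t x v₂ = 1 ∧ inV t v₂ ∧ t x v₁ = -1 := by
  obtain ⟨hv1, hx, hv1x, -⟩ := h1
  obtain ⟨hv2, -, hv2x, hor⟩ := h2
  have htx : t x v₁ = -1 := by rw [T.good.symm]; exact T.neg
  have hxv1 : E x v₁ := C.symm _ _ hv1x
  have hxv2 : E x v₂ := C.symm _ _ hv2x
  have hn12 : ¬ E v₁ v₂ := fun h3 => C.tri x v₁ v₂ hxv1 h3 hv2x
  have hn4 : ∀ w, inV s w → E v₁ w → E w v₂ → False := by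
    intro w hw h3 h4
    refine C.quad x v₁ w v₂ hxv1 h3 h4 hv2x ?_ hne
    rintro rfl
    exact hx hw
  have hv2t : inV t v₂ := by
    by_contra hn
    rcases T.lose v₂ hv2 hn with h3 | ⟨w, hw, hwV, hwp⟩
    · exact hn12 (h.en h3)
    · exact hn4 w hwV (h.ep hw) (h.en hwp)
  have htx2 : t x v₂ = 1 := by
    rcases T.good.val x v₂ with h3 | h3 | h3
    · exact h3
    · exact absurd (T.good.uniq C htx h3) hne
    · exact absurd h3 ((T.good.edge x v₂).1 hxv2)
  obtain ⟨u₂, hu2⟩ := id hv2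
  have hu2V : inV s u₂ := ⟨v₂, by rw [h.symm]; exact hu2⟩
  have htu2 : t v₂ u₂ = -1 := by
    rw [T.same v₂ u₂ (Ne.symm hne), hu2]
    · rintro rfl
      exact hn12 (C.symm _ _ (h.en hu2))
    · rintro ⟨h3, -⟩
      exact hn12 (h.ep h3)
    · rintro ⟨h3, -⟩
      exact hn4 u₂ hu2V (h.ep h3) (C.symm _ _ (h.en hu2))
  obtain ⟨⟨y, hy, hyv2, hyV⟩, ⟨w₂, hw2, hw2x, hw2V⟩, -⟩ := T.good.pair C htx2 htx htu2
  have hxw2 : x ≠ w₂ := Ne.symm hw2x
  have hxu2 : x ≠ u₂ := by rintro rfl; exact hx hu2V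
  have huw : u₂ ≠ w₂ := by rintro rfl; rw [hw2] at htu2; norm_num at htu2
  have hO : ∃ w, s v₂ w = 1 ∧ inV s w := by
    rcases hor with h3 | h3
    · exact h3
    · exfalso
      refine T.good.card_three C hv2t ?_ ⟨v₁, htx⟩ h3
      rw [T.good.symm]; exact htx2
  obtain ⟨w, hw, hwV⟩ := hO
  have hww2 : w = w₂ := by
    rcases C.deg hv2x (h.en hu2) (T.good.ep hw2) (h.ep hw) hxu2 hxw2 huw with rfl | rfl | rfl
    · exact absurd hwV hx
    · rw [hw] at hu2; norm_num at hu2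
    · rfl
  subst hww2
  have hw1 : ∃ w₁, s v₁ w₁ = 1 ∧ inV s w₁ ∧ s w₁ w = -1 := by
    rcases T.lose w hwV hw2V with h3 | h3
    · exact (hn4 w hwV (h.en h3) (C.symm _ _ (h.ep hw))).elim
    · exact h3
  obtain ⟨w₁, hw1, hw1V, hw12⟩ := hw1
  have hyv1 : y ≠ v₁ := by rintro rfl; rw [hy] at htx; norm_num at htx
  have hys : ¬ inV s y := by
    intro hys
    rcases T.lose y hys hyV with h3 | ⟨w', hw', hw'V, hw'y⟩
    · exact C.tri x v₁ y hxv1 (h.en h3) (C.symm _ _ (T.good.ep hy))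
    · have e1 : w' = w₁ := h.opart C hv1 hw' hw'V hw1 hw1V
      subst e1
      have e2 : y = w := h.uniq C hw'y hw12
      subst e2
      exact C.tri x y v₂ (T.good.ep hy) (C.symm _ _ (h.ep hw)) hv2x
  exact ⟨w₁, w, u₂, y, hw1, hw1V, hw, hwV, hw12, T.good.ep hy, hyv1, hyv2, hyV, hys, hu2, htu2,
    htx2, hv2t, htx⟩

/-- A bad vertex has two active neighbours. -/
def bad (E : V → V → Prop) (s : V → V → ℤ) (x : V) : Prop :=
  ∃ v₁ v₂, v₁ ≠ v₂ ∧ act E s v₁ x ∧ act E s v₂ x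

/-- Facts on the neighbour `y` of a bad vertex `x`, seen after moving. -/
theorem afterY (C : Ctx E) (h : Good E s) {x v₁ v₂ y : V} (h1 : act E s v₁ x)
    (h2 : act E s v₂ x) (hne : v₁ ≠ v₂) (T : Tr E s v₁ x t) (hxy : E x y) (hy1 : y ≠ v₁)
    (hy2 : y ≠ v₂) :
    ¬ inV s y ∧ act E t x y ∧ (∀ p, E y p → inV s p → inV t p) := by
  obtain ⟨w₁, w₂, u₂, y', hw1, hw1V, hw2, hw2V, hw12, hxy', hy'1, hy'2, hyt, hys, hu2, htu2,
    htx2, hv2t, htx⟩ := lemB C h h1 h2 hne T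
  obtain ⟨hv1, hx, hv1x, -⟩ := h1
  obtain ⟨hv2, -, hv2x, hor⟩ := h2
  have hyy : y = y' := by
    rcases C.deg (C.symm _ _ hv1x) (C.symm _ _ hv2x) hxy' hxy hne hy'1.symm hy'2.symm with
      h3 | h3 | h3
    · exact absurd h3 hy1
    · exact absurd h3 hy2
    · exact h3
  subst hyy
  refine ⟨hys, ⟨⟨v₁, htx⟩, hyt, hxy, Or.inl ⟨v₂, htx2, hv2t⟩⟩, ?_⟩
  intro p hp hpV
  by_contra hn
  rcases T.lose p hpV hn with h3 | ⟨w', hw', hw'V, hw'p⟩
  · refine C.quad x v₁ p y (C.symm _ _ hv1x) (h.en h3) (C.symm _ _ hp) (C.symm _ _ hxy) ?_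
      (Ne.symm hy1)
    rintro rfl
    exact hx hpV
  · have e1 : w' = w₁ := h.opart C hv1 hw' hw'V hw1 hw1V
    subst e1
    have e2 : p = w₂ := h.uniq C hw'p hw12
    subst e2
    refine C.quad x v₂ p y (C.symm _ _ hv2x) (h.ep hw2) (C.symm _ _ hp) (C.symm _ _ hxy) ?_
      (Ne.symm hy2)
    rintro rfl
    exact hx hpV

/-- Lemma C. -/
theorem lemC (C : Ctx E) (h : Good E s) {x y p q : V} (hb : bad E s x) (hxy : E x y)
    (hys : ¬ inV s y) (hp : E y p) (hq : E y q) (hpV : inV s p) (hqV : inV s q) : p = q := by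
  obtain ⟨v₁, v₂, hne, h1, h2⟩ := hb
  obtain ⟨t, T⟩ := transfer C h h1
  have hx := h1.2.1
  have hy1 : y ≠ v₁ := by rintro rfl; exact hys h1.1
  have hy2 : y ≠ v₂ := by rintro rfl; exact hys h2.1
  obtain ⟨-, ha, hk⟩ := afterY C h h1 h2 hne T hxy hy1 hy2
  refine lemA C T.good ha hp hq (hk p hp hpV) (hk q hq hqV) ?_ ?_
  · rintro rfl; exact hx hpV
  · rintro rfl; exact hx hqV

/-- First part of Lemma D. -/
theorem lemD0 (C : Ctx E) (h : Good E s) {x v₁ v₂ y q : V} (h1 : act E s v₁ x)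
    (h2 : act E s v₂ x) (hne : v₁ ≠ v₂) (hxy : E x y) (hq : act E s q y) :
    ∃ r, s q r = 1 ∧ inV s r ∧ (s v₁ r = -1 ∨ s v₂ r = -1) := by
  obtain ⟨t, T⟩ := transfer C h h1
  have hys := hq.2.1
  have hy1 : y ≠ v₁ := by rintro rfl; exact hys h1.1
  have hy2 : y ≠ v₂ := by rintro rfl; exact hys h2.1
  obtain ⟨-, ha, hk⟩ := afterY C h h1 h2 hne T hxy hy1 hy2
  obtain ⟨w₁, w₂, u₂, y', hw1, hw1V, hw2, hw2V, hw12, hxy', hy'1, hy'2, hyt, hys', hu2, htu2,
    htx2, hv2t, htx⟩ := lemB C h h1 h2 hne T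
  obtain ⟨hv1, hx, hv1x, -⟩ := h1
  obtain ⟨hv2, -, hv2x, -⟩ := h2
  obtain ⟨hqV, -, hqy, hor⟩ := hq
  have hqt : inV t q := hk q (C.symm _ _ hqy) hqV
  have hxq : x ≠ q := by rintro rfl; exact hx hqV
  have hnq1 : ¬ E q v₁ := by
    intro h3
    refine C.quad y q v₁ x (C.symm _ _ hqy) h3 hv1x hxy hy1 (Ne.symm hxq)
  have hq1 : q ≠ v₁ := by
    rintro rfl
    exact C.tri y q x (C.symm _ _ hqy) hv1x hxy
  rcases hor with ⟨r, hr, hrV⟩ | hc
  · refine ⟨r, hr, hrV, ?_⟩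
    by_cases hrt : inV t r
    · right
      have htqr : t q r = 1 := by
        rw [T.same q r hq1, hr]
        · rintro rfl
          exact hnq1 (h.ep hr)
        · rintro ⟨h3, -⟩
          exact hnq1 (C.symm _ _ (h.ep h3))
        · rintro ⟨h3, -⟩
          refine hq1 (h.opart C hrV ?_ hqV ?_ hv1)
          · rw [h.symm]; exact hr
          · rw [h.symm]; exact h3
      have hqa : act E t q y := ⟨hqt, ha.2.1, hqy, Or.inl ⟨r, htqr, hrt⟩⟩
      obtain ⟨t', T'⟩ := transfer C T.good ha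
      obtain ⟨a₁, a₂, a₃, a₄, hb1, hb1V, hb2, hb2V, hb12, -⟩ := lemB C T.good ha hqa hxq T'
      have e1 : a₁ = v₂ := T.good.opart C ha.1 hb1 hb1V htx2 hv2t
      have e2 : a₂ = r := T.good.opart C hqt hb2 hb2V htqr hrt
      subst e1 e2
      have e3 : a₂ = u₂ := T.good.uniq C hb12 htu2
      subst e3
      exact hu2
    · rcases T.lose r hrV hrt with h3 | ⟨w', hw', hw'V, hw'r⟩
      · left; exact h3
      · exfalso
        have e1 : w' = w₁ := h.opart C hv1 hw' hw'V hw1 hw1V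
        subst e1
        have e2 : r = w₂ := h.uniq C hw'r hw12
        subst e2
        have e3 : q = v₂ := h.opart C hrV (by rw [h.symm]; exact hr) hqV
          (by rw [h.symm]; exact hw2) hv2
        subst e3
        exact C.tri y q x (C.symm _ _ hqy) hv2x hxy
  · exfalso
    have hqa : act E t q y := ⟨hqt, ha.2.1, hqy, Or.inr hc⟩
    obtain ⟨t', T'⟩ := transfer C T.good ha
    obtain ⟨a₁, a₂, a₃, a₄, hb1, hb1V, hb2, hb2V, hb12, -⟩ := lemB C T.good ha hqa hxq T'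
    exact T.good.card_three C hqt hb2 hb2V hc

/-- Lemma D. -/
theorem lemD (C : Ctx E) (h : Good E s) {x x' y q : V} (hb : bad E s x) (hb' : bad E s x')
    (hxx : x ≠ x') (hxy : E x y) (hx'y : E x' y) (hq : act E s q y) : False := by
  obtain ⟨v₁, v₂, hne, h1, h2⟩ := hb
  obtain ⟨v₁', v₂', hne', h1', h2'⟩ := hb'
  obtain ⟨r, hr, hrV, hor⟩ := lemD0 C h h1 h2 hne hxy hq
  obtain ⟨r', hr', hr'V, hor'⟩ := lemD0 C h h1' h2' hne' hx'y hq
  have e1 : r = r' := h.opart C hq.1 hr hrV hr' hr'V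
  subst e1
  have key : ∀ {x v₁ v₂ : V}, v₁ ≠ v₂ → act E s v₁ x → act E s v₂ x →
      (s v₁ r = -1 ∨ s v₂ r = -1) → ∃ m w, s m r = -1 ∧ E m x ∧ s m w = 1 ∧ inV s w := by
    intro x v₁ v₂ hne h1 h2 hor
    obtain ⟨t, T⟩ := transfer C h h1
    obtain ⟨w₁, w₂, u₂, y', hw1, hw1V, hw2, hw2V, hw12, -⟩ := lemB C h h1 h2 hne T
    rcases hor with h3 | h3
    · exact ⟨v₁, w₁, h3, h1.2.2.1, hw1, hw1V⟩
    · exact ⟨v₂, w₂, h3, h2.2.2.1, hw2, hw2V⟩
  obtain ⟨m, w, hm, hmx, hmw, hwV⟩ := key hne h1 h2 hor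
  obtain ⟨m', w', hm', hmx', hmw', hwV'⟩ := key hne' h1' h2' hor'
  have e2 : m = m' := h.uniq C (by rw [h.symm]; exact hm) (by rw [h.symm]; exact hm')
  subst e2
  have hxV := h1.2.1
  have hx'V := h1'.2.1
  have hrw : r ≠ w := by rintro rfl; rw [hmw] at hm; norm_num at hm
  rcases C.deg (h.en hm) hmx hmx' (h.ep hmw) (by rintro rfl; exact hxV hrV)
    (by rintro rfl; exact hx'V hrV) hxx with rfl | rfl | rfl
  · exact hrw rfl
  · exact hxV hwV
  · exact hx'V hwV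

end Pool.Agent.Frus
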